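import Pool.Agent.K.MP_db4732_co.C1

theorem Pool.Agent.Results.MP_db4732_co.Lifts.result {H : Type*} [Group H] (τ : ℕ)
    (hτ : ∀ h : H, {g : H | g * g = h}.encard ≤ τ) (n : ℕ)
    (a b c : (Fin n → ZMod 2) → H) (E : Set (H × H))
    (A : Finset ((Fin n → ZMod 2) × (Fin n → ZMod 2)))
    (hA : ∀ x y, (x, y) ∈ A ↔ a x * b y = c (x + y) ∧ (a x, b y) ∈ E)
    (hcf : ∀ x y z, z ≠ 0 → ¬ ((x, y) ∈ A ∧ (x, y + z) ∈ A ∧ (x + z, y) ∈ A)) :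
    ((A.card : ℝ) / 4 ^ n) ^ 81 ≤ 3 * τ ^ 2 * Real.exp (- ((n : ℝ) / 25)) := by
  refine Pool.Agent.P.MP_db4732_co.lifts n τ (fun h => ?_) a b c E A hA hcf
  have hf : {g : H | g * g = h}.Finite := Set.finite_of_encard_le_coe (hτ h)
  refine ⟨hf.toFinset, ?_, fun g hg => hf.mem_toFinset.2 hg⟩
  have := hτ h
  rw [hf.encard_eq_coe_toFinset_card] at this
  exact_mod_cast this
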