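import Pool.Agent.K.MP_db4732_co.C0

theorem Pool.Agent.Results.MP_db4732_co.LowRank.result {K : Type*} [Field K] [CharP K 2]
    (n M : ℕ) (W : Submodule (ZMod 2) ((Fin n → ZMod 2) × (Fin n → ZMod 2)))
    (f g : Fin M → (Fin n → ZMod 2) → K)
    (h : Fin M → (Fin n → ZMod 2) × (Fin n → ZMod 2) → K)
    (hW : ∀ j P, ∀ u ∈ W, h j (P + u) = h j P)
    (A : Finset ((Fin n → ZMod 2) × (Fin n → ZMod 2)))
    (hA : ∀ P, P ∈ A ↔ ∑ j, f j P.1 * g j P.2 * h j P ≠ 0)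
    (hcf : ∀ x y z, z ≠ 0 → ¬ ((x, y) ∈ A ∧ (x, y + z) ∈ A ∧ (x + z, y) ∈ A)) :
    (A.card : ℝ) ≤
      3 * M * 4 ^ n * Real.exp (- ((Module.finrank (ZMod 2) W : ℝ) ^ 2 / (25 * n))) :=
  Pool.Agent.P.MP_db4732_co.Deg.lowRank n M W f g h hW A hA hcf
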