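import Pool.Agent.P.MP_db4732_co.PeelData

theorem Pool.Agent.Results.MP_db4732_co.LowerBound2.result :
    ∃ C : ℝ, 0 < C ∧ ∀ n : ℕ, ∃ A : Finset ((Fin n → ZMod 2) × (Fin n → ZMod 2)),
      (∀ x y z : Fin n → ZMod 2, z ≠ 0 → ¬ ((x, y) ∈ A ∧ (x, y + z) ∈ A ∧ (x + z, y) ∈ A)) ∧
      C * (3484 / 1000 : ℝ) ^ n ≤ (A.card : ℝ) :=
  Pool.Agent.P.MP_db4732_co.Peel.lower
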