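import Pool.Agent.K.MP_db4732_co.C3

set_option autoImplicit false

namespace Pool.Agent.Results.MP_db4732_co.QuasiPoly

theorem result : ∃ c : ℝ, 0 < c ∧ ∀ (n : ℕ) (A : Finset ((Fin n → ZMod 2) × (Fin n → ZMod 2))),
    (∀ x y z : Fin n → ZMod 2, z ≠ 0 → ¬ ((x, y) ∈ A ∧ (x, y + z) ∈ A ∧ (x + z, y) ∈ A)) →
    (A.card : ℝ) ≤ 2 * 4 ^ n * Real.exp (-c * (n : ℝ) ^ (1 / 16 : ℝ)) :=
  Pool.Agent.P.MP_db4732_co.Q.main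

end Pool.Agent.Results.MP_db4732_co.QuasiPoly
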